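import Pool.Agent.W_be22fd_h27.Same
import Pool.Agent.W_be22fd_h97.GridInj
import Pool.Agent.W_be22fd_h97.GridIniFin

/-!
# The grid step as a `Block`
-/

namespace Pool.Agent.W_be22fd_h27

variable (B : Block) (X : ℕ)

/-! ### finiteness -/

def MK.equiv (ns : ℕ) : MK ns ≃ ((Unit ⊕ Unit) ⊕ (Fin ns ⊕ Fin ns)) where
  toFun
    | .c => Sum.inl (Sum.inl ())
    | .l => Sum.inl (Sum.inr ())
    | .Rp m => Sum.inr (Sum.inl m)
    | .Sp m => Sum.inr (Sum.inr m)
  invFun
    | Sum.inl (Sum.inl _) => .c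
    | Sum.inl (Sum.inr _) => .l
    | Sum.inr (Sum.inl m) => .Rp m
    | Sum.inr (Sum.inr m) => .Sp m
  left_inv := by rintro (_ | _ | _ | _) <;> rfl
  right_inv := by rintro ((_ | _) | (_ | _)) <;> rfl

/-- finitely many kinds (a `def`, not an instance, to avoid diamonds) -/
@[reducible] def MK.fin (ns : ℕ) : Fintype (MK ns) := Fintype.ofEquiv _ (MK.equiv ns).symm

noncomputable def GW.equiv : GW B X ≃
    ((Σ u : B.W, ↥(Finset.Icc (-(|B.slope u| * X)) ((|B.slope u| + 1) * X))) ⊕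
      (MK B.ns × Fin (X * X))) where
  toFun
    | .old u o ho => Sum.inl ⟨u, ⟨o, ho⟩⟩
    | .mv κ k => Sum.inr (κ, k)
  invFun
    | Sum.inl ⟨u, ⟨o, ho⟩⟩ => .old u o ho
    | Sum.inr (κ, k) => .mv κ k
  left_inv := by rintro (_ | _) <;> rfl
  right_inv := by rintro (⟨_, _⟩ | ⟨_, _⟩) <;> rfl

/-- finitely many inner wires -/
@[reducible] noncomputable def GW.fin : Fintype (GW B X) :=
  letI := MK.fin B.ns
  Fintype.ofEquiv _ (GW.equiv B X).symm

/-! ### keys -/

/-- up to stage 3 the core does not move -/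
theorem hG_stage (M i : ℕ) (hi : i ≤ 3) (p : Wire (GW B X) (X * X + 1)) (hp : p.IsCore) :
    hG B X M i B.ini p = hG B X M 0 B.ini p := by
  cases p with
  | inn w =>
    cases w with
    | old u o ho => simp only [hG, hOld, clk, hi, if_true]; simp
    | mv κ k => simp only [hG, hMv, hi]; simp [show i ≠ 4 by omega]
  | L => rfl
  | C => rfl
  | S m => exact absurd hp (by simp [Wire.IsCore])
  | R m => exact absurd hp (by simp [Wire.IsCore])

/-- lexicographic order of the states -/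
theorem SLe_of_le {n : ℕ} {t t' : Fin n ×ₗ (Fin 6 ×ₗ B.τ)} (h : t ≤ t') :
    SLe B (ofLex t).1 (ofLex (ofLex t).2).1 (ofLex (ofLex t).2).2
      (ofLex t').1 (ofLex (ofLex t').2).1 (ofLex (ofLex t').2).2 := by
  rw [Prod.Lex.le_iff] at h
  unfold SLe
  rcases h with h | ⟨h, h'⟩
  · exact Or.inl h
  · rw [Prod.Lex.le_iff] at h'
    refine Or.inr ⟨by rw [h], ?_⟩
    rcases h' with h' | ⟨h', h''⟩
    · exact Or.inl h'
    · exact Or.inr ⟨by rw [h'], h''⟩

/-- key states -/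
@[reducible] def gridKey (m : Fin (X * X + 1)) (j : Fin 4) : Fin (X * X + 3) ×ₗ (Fin 6 ×ₗ B.τ) :=
  toLex (⟨m + 1, by omega⟩, toLex (⟨j, by omega⟩, B.ini))

/-- system of the grid -/
def gridT : GW B X → Prop
  | .old u _ _ => B.T u
  | .mv .c _ => True
  | .mv .l _ => True
  | .mv _ _ => False

/-- THE GRID STEP: `X * X` slots, each playing the block `B` on the parallel family -/
noncomputable def grid : Block where
  W := GW B X
  fW := GW.fin B X
  slope := slopeG B X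
  A := B.A + (X * X : ℕ) + 1
  A_nonneg := by have := B.A_nonneg; have : (0 : ℤ) ≤ ((X * X : ℕ) : ℤ) := Int.natCast_nonneg _; omega
  slope_le w := abs_le.2 (slopeG_bound B X w)
  ns := X * X + 1
  τ := Fin (X * X + 3) ×ₗ (Fin 6 ×ₗ B.τ)
  α := ℤ ×ₗ (ℤ ×ₗ (ℤ ×ₗ B.α))
  h t p := hG B X (ofLex t).1 (ofLex (ofLex t).2).1 (ofLex (ofLex t).2).2 p
  ini := toLex (0, toLex (0, B.ini))
  fin := toLex (Fin.last _, toLex (Fin.last _, B.fin))
  ini_le t := by
    rw [Prod.Lex.le_iff]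
    rcases (Fin.zero_le (ofLex t).1).lt_or_eq with h | h
    · exact Or.inl h
    · refine Or.inr ⟨h, ?_⟩
      rw [Prod.Lex.le_iff]
      rcases (Fin.zero_le (ofLex (ofLex t).2).1).lt_or_eq with h | h
      · exact Or.inl h
      · exact Or.inr ⟨h, B.ini_le _⟩
  le_fin t := by
    rw [Prod.Lex.le_iff]
    rcases (Fin.le_last (ofLex t).1).lt_or_eq with h | h
    · exact Or.inl h
    · refine Or.inr ⟨h, ?_⟩
      rw [Prod.Lex.le_iff]
      rcases (Fin.le_last (ofLex (ofLex t).2).1).lt_or_eq with h | h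
      · exact Or.inl h
      · exact Or.inr ⟨h, B.le_fin _⟩
  inj t := W_be22fd_h97.hG_injective B X _ _ _
  h_ini p q h := W_be22fd_h97.hG_ini B X 0 B.ini p q h
  h_fin p q h := W_be22fd_h97.hG_fin B X (le_refl _) _ _ p q h
  once p q t t' hr hle h := onceG B X p q hr _ _ _ _ _ _ (SLe_of_le B hle) h
  same p q t t' hr h := sameG B X p q hr _ _ _ _ _ _ h
  S_order m m' h t := S_orderG B X m m' h _ _ _
  R_order m m' h t := R_orderG B X m m' h _ _ _
  key := gridKey B X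
  key_lt m := by
    refine ⟨?_, ?_, ?_⟩ <;>
    (rw [Prod.Lex.le_iff]; refine Or.inr ⟨rfl, ?_⟩
     rw [Prod.Lex.le_iff]; left; simp [Fin.lt_def])
  key_mono m m' h := by
    rw [Prod.Lex.le_iff]; left
    simp only [gridKey, ofLex_toLex, Fin.lt_def]
    have : (m : ℕ) < m' := h
    omega
  key_core m i p q hp hq h := by
    simp only [gridKey, ofLex_toLex] at h ⊢
    rw [hG_stage B X _ _ (by omega) p hp, hG_stage B X _ _ (by omega) q hq]
    exact h
  key0 m p hp := by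
    obtain ⟨z, a, b, c, e, h1, h2, h3⟩ := core_zone B X (m + 1) 0 B.ini p hp
    constructor
    · change hG B X (m + 1) 0 B.ini (.R m) < hG B X (m + 1) 0 B.ini p
      rcases hR_cases B X (m + 1) 0 B.ini m with ⟨f, d⟩ | ⟨f, d⟩ | ⟨f, d⟩
      · rw [e, f, H4_lt]; omega
      · omega
      · omega
    · change hG B X (m + 1) 0 B.ini p < hG B X (m + 1) 0 B.ini (.S m)
      rcases hS_cases B X (m + 1) 0 B.ini m with ⟨f, d⟩ | ⟨f, d⟩
      · rw [e, f, H4_lt]; omega
      · omega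
  key1 m p hp := by
    obtain ⟨z, a, b, c, e, h1, h2, h3⟩ := core_zone B X (m + 1) 1 B.ini p hp
    have := h3 (by omega)
    change hG B X (m + 1) 1 B.ini p < hG B X (m + 1) 1 B.ini (.R m)
    rcases hR_cases B X (m + 1) 1 B.ini m with ⟨f, d⟩ | ⟨f, d⟩ | ⟨f, d⟩
    · omega
    · rw [e, f, H4_lt]; omega
    · omega
  key1' m := by
    change hG B X (m + 1) 1 B.ini (.R m) < hG B X (m + 1) 1 B.ini (.S m)
    rcases hR_cases B X (m + 1) 1 B.ini m with ⟨f, d⟩ | ⟨f, d⟩ | ⟨f, d⟩ <;>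
    rcases hS_cases B X (m + 1) 1 B.ini m with ⟨f', d'⟩ | ⟨f', d'⟩ <;>
    first
      | (exfalso; omega)
      | (rw [f, f', H4_lt]; omega)
  key2 m p hp := by
    obtain ⟨z, a, b, c, e, h1, h2, h3⟩ := core_zone B X (m + 1) 2 B.ini p hp
    change hG B X (m + 1) 2 B.ini p < hG B X (m + 1) 2 B.ini (.S m)
    rcases hS_cases B X (m + 1) 2 B.ini m with ⟨f, d⟩ | ⟨f, d⟩
    · rw [e, f, H4_lt]; omega
    · omega
  key2' m := by
    change hG B X (m + 1) 2 B.ini (.S m) < hG B X (m + 1) 2 B.ini (.R m)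
    rcases hR_cases B X (m + 1) 2 B.ini m with ⟨f, d⟩ | ⟨f, d⟩ | ⟨f, d⟩ <;>
    rcases hS_cases B X (m + 1) 2 B.ini m with ⟨f', d'⟩ | ⟨f', d'⟩ <;>
    first
      | (exfalso; omega)
      | (rw [f, f', H4_lt]; omega)
  key3 m p hp := by
    obtain ⟨z, a, b, c, e, h1, h2, h3⟩ := core_zone B X (m + 1) 3 B.ini p hp
    change hG B X (m + 1) 3 B.ini (.S m) < hG B X (m + 1) 3 B.ini p
    rcases hS_cases B X (m + 1) 3 B.ini m with ⟨f, d⟩ | ⟨f, d⟩
    · omega
    · rw [e, f, H4_lt]; omega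
  T := gridT B X

@[simp] theorem grid_ns : (grid B X).ns = X * X + 1 := rfl
@[simp] theorem grid_A : (grid B X).A = B.A + (X * X : ℕ) + 1 := rfl
theorem grid_h (t : (grid B X).τ) (p : Wire (grid B X).W (grid B X).ns) :
    (grid B X).h t p = hG B X (ofLex t).1 (ofLex (ofLex t).2).1 (ofLex (ofLex t).2).2 p := rfl
theorem grid_h_mk (M : Fin (X * X + 3)) (i : Fin 6) (t : B.τ)
    (p : Wire (grid B X).W (grid B X).ns) :
    (grid B X).h (toLex (M, toLex (i, t))) p = hG B X M i t p := rfl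
theorem grid_rk (p : Wire (grid B X).W (grid B X).ns) :
    rk (grid B X).A (grid B X).slope p = rkG B X p := rfl

end Pool.Agent.W_be22fd_h27
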