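import Mathlib

/-!
# The word of row 419 (helper86): blocks and the grid step

`Block` = a word with inner wires `W` (integer slopes), two movers `L`, `C` of the parent,
outer syncs `S m`, `R m`.  States form a linear order `τ` with least element `ini` and greatest
element `fin`; `h t p` is the height of the wire `p` in the state `t` (bigger = higher).
-/

namespace Pool.Agent.W_be22fd_h27

/-- Wires of a block with inner wires `W` and `ns` pairs of outer syncs. -/
inductive Wire (W : Type) (ns : ℕ) : Type
  | inn (w : W) : Wire W ns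
  | L : Wire W ns
  | C : Wire W ns
  | S (m : Fin ns) : Wire W ns
  | R (m : Fin ns) : Wire W ns
  deriving DecidableEq

/-- The class (generalised slope) of a wire: `S`, `L`, inner wires by slope, `C`, `R`. -/
def rk {W : Type} {ns : ℕ} (A : ℤ) (slope : W → ℤ) : Wire W ns → ℤ
  | .inn w => slope w
  | .L => -(A + 1)
  | .C => A + 1
  | .S _ => -(A + 2)
  | .R _ => A + 2

/-- core wires: everything except the outer syncs -/
def Wire.IsCore {W : Type} {ns : ℕ} : Wire W ns → Prop
  | .S _ => False
  | .R _ => False
  | _ => True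

structure Block where
  W : Type
  [fW : Fintype W]
  [dW : DecidableEq W]
  slope : W → ℤ
  A : ℤ
  A_nonneg : 0 ≤ A
  slope_le : ∀ w, |slope w| ≤ A
  ns : ℕ
  τ : Type
  [fτ : Fintype τ]
  [oτ : LinearOrder τ]
  α : Type
  [oα : LinearOrder α]
  /-- heights -/
  h : τ → Wire W ns → α
  ini : τ
  fin : τ
  ini_le : ∀ t, ini ≤ t
  le_fin : ∀ t, t ≤ fin
  inj : ∀ t, Function.Injective (h t)
  /-- initial order: smaller class on top -/
  h_ini : ∀ p q, rk A slope p < rk A slope q → h ini q < h ini p
  /-- final order: larger class on top -/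
  h_fin : ∀ p q, rk A slope p < rk A slope q → h fin p < h fin q
  /-- once switched stays switched -/
  once : ∀ p q t t', rk A slope p < rk A slope q → t ≤ t' → h t p < h t q → h t' p < h t' q
  /-- wires of one class never switch -/
  same : ∀ p q t t', rk A slope p = rk A slope q → h t p < h t q → h t' p < h t' q
  S_order : ∀ m m' : Fin ns, m < m' → ∀ t, h t (.S m) < h t (.S m')
  R_order : ∀ m m' : Fin ns, m < m' → ∀ t, h t (.R m') < h t (.R m)
  /-- the four states of the sync pair `m` : arrival, `R m` has risen through the core,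
  `R m` has crossed `S m`, `S m` has fallen through the core -/
  key : Fin ns → Fin 4 → τ
  key_lt : ∀ m, key m 0 ≤ key m 1 ∧ key m 1 ≤ key m 2 ∧ key m 2 ≤ key m 3
  key_mono : ∀ m m', m < m' → key m 3 ≤ key m' 0
  key_core : ∀ m i p q, p.IsCore → q.IsCore → h (key m 0) p < h (key m 0) q →
    h (key m i) p < h (key m i) q
  key0 : ∀ m p, Wire.IsCore p → h (key m 0) (.R m) < h (key m 0) p ∧ h (key m 0) p < h (key m 0) (.S m)
  key1 : ∀ m p, Wire.IsCore p → h (key m 1) p < h (key m 1) (.R m)
  key1' : ∀ m, h (key m 1) (.R m) < h (key m 1) (.S m)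
  key2 : ∀ m p, Wire.IsCore p → h (key m 2) p < h (key m 2) (.S m)
  key2' : ∀ m, h (key m 2) (.S m) < h (key m 2) (.R m)
  key3 : ∀ m p, Wire.IsCore p → h (key m 3) (.S m) < h (key m 3) p
  /-- the system: `L`, `C` and the inner wires in `T` -/
  T : W → Prop

attribute [instance] Block.fW Block.dW Block.fτ Block.oτ Block.oα

end Pool.Agent.W_be22fd_h27
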