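import Pool.Agent.W_be22fd_h27.Block

/-!
# The grid step: definition of the wires, states and heights
-/

namespace Pool.Agent.W_be22fd_h27

/-- kinds of the new wires of slot `k`: they play `C`, `L`, `R m`, `S m` of the child block -/
inductive MK (ns : ℕ) : Type
  | c : MK ns
  | l : MK ns
  | Rp (m : Fin ns) : MK ns
  | Sp (m : Fin ns) : MK ns
  deriving DecidableEq

namespace MK
variable {ns : ℕ}

/-- the wire of the child block played by a new wire -/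
def wire {W : Type} : MK ns → Wire W ns
  | c => .C
  | l => .L
  | Rp m => .R m
  | Sp m => .S m

/-- slope of the new wire of slot `k` -/
def slp (A : ℤ) (K k : ℕ) : MK ns → ℤ
  | c => A + 1 + k
  | l => -(A + 1 + k)
  | Rp _ => A + K + 1
  | Sp _ => -(A + K + 1)

/-- zone, index, subindex before the slot -/
def zb : MK ns → ℤ
  | c => -18
  | l => -14
  | Rp _ => -20
  | Sp _ => -12
def ab (k : ℕ) : MK ns → ℤ
  | c => -k
  | l => k
  | Rp _ => -k
  | Sp _ => k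
def bb : MK ns → ℤ
  | c => 0
  | l => 0
  | Rp m => -(m : ℤ)
  | Sp m => (m : ℤ)
/-- zone and index after the slot -/
def za : MK ns → ℤ
  | c => -8
  | l => -24
  | Rp _ => -6
  | Sp _ => -26
def aa (k : ℕ) : MK ns → ℤ
  | c => k
  | l => -k
  | Rp _ => -k
  | Sp _ => k

end MK

/-- inner wires of the grid -/
inductive GW (B : Block) (X : ℕ) : Type
  | old (u : B.W) (o : ℤ) (ho : o ∈ Finset.Icc (-(|B.slope u| * X)) ((|B.slope u| + 1) * X)) : GW B X
  | mv (κ : MK B.ns) (k : Fin (X * X)) : GW B X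
  deriving DecidableEq

/-- four-fold lexicographic height -/
def H4 {α : Type} (z a b : ℤ) (c : α) : ℤ ×ₗ (ℤ ×ₗ (ℤ ×ₗ α)) :=
  toLex (z, toLex (a, toLex (b, c)))

theorem H4_lt {α : Type} [LinearOrder α] {z a b z' a' b' : ℤ} {c c' : α} :
    H4 z a b c < H4 z' a' b' c' ↔
      z < z' ∨ z = z' ∧ (a < a' ∨ a = a' ∧ (b < b' ∨ b = b' ∧ c < c')) := by
  simp only [H4, Prod.Lex.toLex_lt_toLex]

theorem H4_inj {α : Type} {z a b z' a' b' : ℤ} {c c' : α} :
    H4 z a b c = H4 z' a' b' c' ↔ z = z' ∧ a = a' ∧ b = b' ∧ c = c' := by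
  simp only [H4, toLex_inj, Prod.mk.injEq]

section
variable (B : Block) (X : ℕ)

/-- column and row of the site number `M - 1` -/
def kx (M : ℕ) : ℤ := (((M - 1) / X : ℕ) : ℤ)
def ky (M : ℕ) : ℤ := (((M - 1) % X : ℕ) : ℤ)

/-- clock of the site in row `y` (of the current column) in the state `(M, i, t)` -/
def clk (M i : ℕ) (t : B.τ) (y : ℤ) : B.τ :=
  if y < ky X M then B.fin else if ky X M < y then B.ini else
    if i ≤ 3 then B.ini else if i = 4 then t else B.fin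

/-- height of the wire `(u, o)` -/
def hOld (M i : ℕ) (t : B.τ) (u : B.W) (o : ℤ) : ℤ ×ₗ (ℤ ×ₗ (ℤ ×ₗ B.α)) :=
  if M = 0 then H4 (-16) (-B.slope u) o (B.h B.ini (.inn u))
  else if M ≤ X * X + 1 then
    H4 (-16) (B.slope u * kx X M + o) 0 (B.h (clk B X M i t (B.slope u * kx X M + o)) (.inn u))
  else H4 (-16) (B.slope u) o (B.h B.fin (.inn u))

/-- height of the new wire of kind `κ` of the slot `k` -/
def hMv (M i : ℕ) (t : B.τ) (κ : MK B.ns) (k : ℕ) : ℤ ×ₗ (ℤ ×ₗ (ℤ ×ₗ B.α)) :=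
  if M < k + 1 ∨ (M = k + 1 ∧ i ≤ 3) then H4 κ.zb (κ.ab k) κ.bb (B.h B.ini κ.wire)
  else if M = k + 1 ∧ i = 4 then H4 (-16) (ky X M) 0 (B.h t κ.wire)
  else H4 κ.za (κ.aa k) κ.bb (B.h B.fin κ.wire)

/-- height of an arbitrary wire of the grid -/
def hG (M i : ℕ) (t : B.τ) : Wire (GW B X) (X * X + 1) → ℤ ×ₗ (ℤ ×ₗ (ℤ ×ₗ B.α))
  | .inn (.old u o _) => hOld B X M i t u o
  | .inn (.mv κ k) => hMv B X M i t κ k
  | .L => if M ≤ X * X + 1 then H4 (-10) 0 0 (B.h B.ini .L) else H4 (-27) 0 0 (B.h B.ini .L)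
  | .C => if M ≤ X * X + 1 then H4 (-22) 0 0 (B.h B.ini .L) else H4 (-5) 0 0 (B.h B.ini .L)
  | .S m => if M < m + 1 ∨ (M = m + 1 ∧ i ≤ 2) then H4 (-4) m 0 (B.h B.ini .L)
      else H4 (-30) m 0 (B.h B.ini .L)
  | .R m => if M < m + 1 ∨ (M = m + 1 ∧ i = 0) then H4 (-28) (-(m : ℤ)) 0 (B.h B.ini .L)
      else if M = m + 1 ∧ i = 1 then H4 (-5) 0 0 (B.h B.ini .L)
      else H4 (-2) (-(m : ℤ)) 0 (B.h B.ini .L)

/-- slope of an inner wire of the grid -/
def slopeG : GW B X → ℤ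
  | .old u _ _ => B.slope u
  | .mv κ k => κ.slp B.A (X * X) k

/-- class of a wire of the grid -/
def rkG (p : Wire (GW B X) (X * X + 1)) : ℤ := rk (B.A + (X * X : ℕ) + 1) (slopeG B X) p

/-- `(M, i, t)` is at most `(M', i', t')` -/
def SLe (M i : ℕ) (t : B.τ) (M' i' : ℕ) (t' : B.τ) : Prop :=
  M < M' ∨ (M = M' ∧ (i < i' ∨ (i = i' ∧ t ≤ t')))

end

end Pool.Agent.W_be22fd_h27
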