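import Pool.Agent.W_be22fd_h27.GridDef

namespace Pool.Agent.W_be22fd_h27

variable (B : Block) (X : ℕ)

theorem hMv_cases (M i : ℕ) (t : B.τ) (κ : MK B.ns) (k : ℕ) :
    (hMv B X M i t κ k = H4 κ.zb (κ.ab k) κ.bb (B.h B.ini κ.wire) ∧ (M < k + 1 ∨ (M = k + 1 ∧ i ≤ 3))) ∨
    (hMv B X M i t κ k = H4 (-16) (ky X M) 0 (B.h t κ.wire) ∧ (M = k + 1 ∧ i = 4)) ∨
    (hMv B X M i t κ k = H4 κ.za (κ.aa k) κ.bb (B.h B.fin κ.wire) ∧ (k + 1 < M ∨ (M = k + 1 ∧ 5 ≤ i))) := by
  unfold hMv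
  split_ifs with h1 h2
  · left; exact ⟨rfl, h1⟩
  · right; left; exact ⟨rfl, h2⟩
  · right; right; exact ⟨rfl, by omega⟩

/-- class of the wires of the child block played -/
theorem slp_lt_wire (κ κ' : MK B.ns) (k : ℕ) (hk : k < X * X)
    (h : κ.slp B.A (X * X) k < κ'.slp B.A (X * X) k) :
    rk B.A B.slope (κ.wire (W := B.W)) < rk B.A B.slope (κ'.wire (W := B.W)) := by
  have hA := B.A_nonneg
  have hk' : (k : ℤ) < ((X * X : ℕ) : ℤ) := by exact_mod_cast hk
  generalize ((X * X : ℕ) : ℤ) = K at *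
  cases κ <;> cases κ' <;> simp only [MK.slp, MK.wire, rk] at h ⊢ <;> omega

theorem before_gt (κ κ' : MK B.ns) (k : ℕ)
    (hw : rk B.A B.slope (κ.wire (W := B.W)) < rk B.A B.slope (κ'.wire (W := B.W))) (c c' : B.α) :
    H4 κ'.zb (κ'.ab k) κ'.bb c' < H4 κ.zb (κ.ab k) κ.bb c := by
  have hA := B.A_nonneg
  rw [H4_lt]
  cases κ <;> cases κ' <;> simp only [MK.zb, MK.ab, MK.bb, MK.wire, rk] at hw ⊢ <;> omega

theorem after_lt (κ κ' : MK B.ns) (k : ℕ)
    (hw : rk B.A B.slope (κ.wire (W := B.W)) < rk B.A B.slope (κ'.wire (W := B.W))) (c c' : B.α) :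
    H4 κ.za (κ.aa k) κ.bb c < H4 κ'.za (κ'.aa k) κ'.bb c' := by
  have hA := B.A_nonneg
  rw [H4_lt]
  cases κ <;> cases κ' <;> simp only [MK.za, MK.aa, MK.bb, MK.wire, rk] at hw ⊢ <;> omega

theorem once_mv_mv (κ κ' : MK B.ns) (k k' : ℕ) (hk : k < X * X) (hk' : k' < X * X)
    (hs : κ.slp B.A (X * X) k < κ'.slp B.A (X * X) k')
    (M i : ℕ) (t : B.τ) (M' i' : ℕ) (t' : B.τ) (hle : SLe B M i t M' i' t')
    (h : hMv B X M i t κ k < hMv B X M i t κ' k') :
    hMv B X M' i' t' κ k < hMv B X M' i' t' κ' k' := by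
  have hA := B.A_nonneg
  have hk1 : (k : ℤ) < ((X * X : ℕ) : ℤ) := by exact_mod_cast hk
  have hk1' : (k' : ℤ) < ((X * X : ℕ) : ℤ) := by exact_mod_cast hk'
  rcases lt_trichotomy k k' with hkk | hkk | hkk
  · -- `k` first
    rcases hMv_cases B X M i t κ k with ⟨e, c⟩ | ⟨e, c⟩ | ⟨e, c⟩ <;>
    rcases hMv_cases B X M i t κ' k' with ⟨e', c'⟩ | ⟨e', c'⟩ | ⟨e', c'⟩ <;>
    first
      | (exfalso; omega)
      | (rw [e, e', H4_lt] at h
         rcases hMv_cases B X M' i' t' κ k with ⟨f, d⟩ | ⟨f, d⟩ | ⟨f, d⟩ <;>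
         rcases hMv_cases B X M' i' t' κ' k' with ⟨f', d'⟩ | ⟨f', d'⟩ | ⟨f', d'⟩ <;>
         first
          | (exfalso; unfold SLe at hle; omega)
          | (rw [f, f', H4_lt]
             generalize ((X * X : ℕ) : ℤ) = K at *
             cases κ <;> cases κ' <;>
              simp only [MK.slp, MK.zb, MK.za, MK.ab, MK.aa, MK.bb] at h hs ⊢ <;>
              omega))
  · -- same slot
    subst hkk
    have hw := slp_lt_wire B X κ κ' k hk hs
    rcases hMv_cases B X M i t κ k with ⟨e, c⟩ | ⟨e, c⟩ | ⟨e, c⟩ <;>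
    rcases hMv_cases B X M i t κ' k with ⟨e', c'⟩ | ⟨e', c'⟩ | ⟨e', c'⟩ <;>
    first
      | (exfalso; omega)
      | skip
    · rw [e, e'] at h
      exact absurd h (not_lt.2 (before_gt B κ κ' k hw _ _).le)
    · rw [e, e', H4_lt] at h
      have h : B.h t κ.wire < B.h t κ'.wire := by simpa using h
      rcases hMv_cases B X M' i' t' κ k with ⟨f, d⟩ | ⟨f, d⟩ | ⟨f, d⟩ <;>
      rcases hMv_cases B X M' i' t' κ' k with ⟨f', d'⟩ | ⟨f', d'⟩ | ⟨f', d'⟩ <;>
      first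
        | (exfalso; unfold SLe at hle; omega)
        | skip
      · have htt : t ≤ t' := by
          rcases hle with h1 | ⟨_, h1 | ⟨_, h1⟩⟩
          · omega
          · omega
          · exact h1
        rw [f, f', H4_lt]
        have := B.once _ _ _ _ hw htt h
        simpa using this
      · rw [f, f']
        exact after_lt B κ κ' k hw _ _
    · rcases hMv_cases B X M' i' t' κ k with ⟨f, d⟩ | ⟨f, d⟩ | ⟨f, d⟩ <;>
      rcases hMv_cases B X M' i' t' κ' k with ⟨f', d'⟩ | ⟨f', d'⟩ | ⟨f', d'⟩ <;>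
      first
        | (exfalso; unfold SLe at hle; omega)
        | skip
      rw [f, f']
      exact after_lt B κ κ' k hw _ _
  · -- `k'` first
    rcases hMv_cases B X M i t κ k with ⟨e, c⟩ | ⟨e, c⟩ | ⟨e, c⟩ <;>
    rcases hMv_cases B X M i t κ' k' with ⟨e', c'⟩ | ⟨e', c'⟩ | ⟨e', c'⟩ <;>
    first
      | (exfalso; omega)
      | (rw [e, e', H4_lt] at h
         rcases hMv_cases B X M' i' t' κ k with ⟨f, d⟩ | ⟨f, d⟩ | ⟨f, d⟩ <;>
         rcases hMv_cases B X M' i' t' κ' k' with ⟨f', d'⟩ | ⟨f', d'⟩ | ⟨f', d'⟩ <;>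
         first
          | (exfalso; unfold SLe at hle; omega)
          | (rw [f, f', H4_lt]
             generalize ((X * X : ℕ) : ℤ) = K at *
             cases κ <;> cases κ' <;>
              simp only [MK.slp, MK.zb, MK.za, MK.ab, MK.aa, MK.bb] at h hs ⊢ <;>
              omega))


theorem hOld_cases (M i : ℕ) (t : B.τ) (u : B.W) (o : ℤ) :
    (hOld B X M i t u o = H4 (-16) (-B.slope u) o (B.h B.ini (.inn u)) ∧ M = 0) ∨
    (hOld B X M i t u o = H4 (-16) (B.slope u * kx X M + o) 0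
      (B.h (clk B X M i t (B.slope u * kx X M + o)) (.inn u)) ∧ (1 ≤ M ∧ M ≤ X * X + 1)) ∨
    (hOld B X M i t u o = H4 (-16) (B.slope u) o (B.h B.fin (.inn u)) ∧ X * X + 2 ≤ M) := by
  unfold hOld
  split_ifs with h1 h2
  · left; exact ⟨rfl, h1⟩
  · right; left; exact ⟨rfl, by omega, h2⟩
  · right; right; exact ⟨rfl, by omega⟩

theorem hOld_zone (M i : ℕ) (t : B.τ) (u : B.W) (o : ℤ) :
    ∃ a b c, hOld B X M i t u o = H4 (-16) a b c := by
  unfold hOld
  split_ifs <;> exact ⟨_, _, _, rfl⟩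

theorem once_old_mv (u : B.W) (o : ℤ) (κ : MK B.ns) (k : ℕ) (hk : k < X * X)
    (hs : B.slope u < κ.slp B.A (X * X) k)
    (M i : ℕ) (t : B.τ) (M' i' : ℕ) (t' : B.τ) (hle : SLe B M i t M' i' t')
    (h : hOld B X M i t u o < hMv B X M i t κ k) :
    hOld B X M' i' t' u o < hMv B X M' i' t' κ k := by
  have hA := B.A_nonneg
  have hsl := abs_le.1 (B.slope_le u)
  have hz : κ.zb < -16 ∧ -16 < κ.za ∧ rk B.A B.slope (.inn u : Wire B.W B.ns) < rk B.A B.slope (κ.wire (W := B.W)) := by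
    cases κ <;> simp only [MK.slp, MK.zb, MK.za, MK.wire, rk] at hs ⊢ <;> omega
  obtain ⟨hz1, hz2, hw⟩ := hz
  obtain ⟨a', b', c', e'⟩ := hOld_zone B X M' i' t' u o
  rcases hMv_cases B X M i t κ k with ⟨e, c⟩ | ⟨e, c⟩ | ⟨e, c⟩
  · obtain ⟨a1, b1, c1, e1⟩ := hOld_zone B X M i t u o
    rw [e, e1, H4_lt] at h
    omega
  · rcases hMv_cases B X M' i' t' κ k with ⟨f, d⟩ | ⟨f, d⟩ | ⟨f, d⟩
    · exfalso; unfold SLe at hle; omega
    · have hM : M' = M := by omega
      have htt : t ≤ t' := by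
        rcases hle with h1 | ⟨_, h1 | ⟨_, h1⟩⟩
        · omega
        · omega
        · exact h1
      subst hM
      obtain ⟨c1, c2⟩ := c
      obtain ⟨d1, d2⟩ := d
      subst c2; subst d2
      rcases hOld_cases B X M' 4 t u o with ⟨e1, c1'⟩ | ⟨e1, c1'⟩ | ⟨e1, c1'⟩
      · omega
      · rcases hOld_cases B X M' 4 t' u o with ⟨f1, d1'⟩ | ⟨f1, d1'⟩ | ⟨f1, d1'⟩
        · omega
        · rw [e, e1, H4_lt] at h
          rw [f, f1, H4_lt]
          refine Or.inr ⟨rfl, ?_⟩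
          rcases h with h | ⟨_, h | ⟨h, h'⟩⟩
          · omega
          · exact Or.inl h
          · refine Or.inr ⟨h, Or.inr ⟨rfl, ?_⟩⟩
            have h2 : B.h (clk B X M' 4 t (B.slope u * kx X M' + o)) (.inn u) < B.h t κ.wire := by
              rcases h' with h' | ⟨_, h'⟩
              · omega
              · exact h'
            have k1 : ∀ tt, clk B X M' 4 tt (B.slope u * kx X M' + o) = tt := by
              intro tt; unfold clk; rw [if_neg (by omega), if_neg (by omega)]; simp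
            rw [k1] at h2 ⊢
            exact B.once _ _ _ _ hw htt h2
        · omega
      · omega
    · rw [f, e', H4_lt]; omega
  · rcases hMv_cases B X M' i' t' κ k with ⟨f, d⟩ | ⟨f, d⟩ | ⟨f, d⟩
    · exfalso; unfold SLe at hle; omega
    · exfalso; unfold SLe at hle; omega
    · rw [f, e', H4_lt]; omega

theorem once_mv_old (u : B.W) (o : ℤ) (κ : MK B.ns) (k : ℕ) (hk : k < X * X)
    (hs : κ.slp B.A (X * X) k < B.slope u)
    (M i : ℕ) (t : B.τ) (M' i' : ℕ) (t' : B.τ) (hle : SLe B M i t M' i' t')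
    (h : hMv B X M i t κ k < hOld B X M i t u o) :
    hMv B X M' i' t' κ k < hOld B X M' i' t' u o := by
  have hA := B.A_nonneg
  have hsl := abs_le.1 (B.slope_le u)
  have hz : -16 < κ.zb ∧ κ.za < -16 ∧ rk B.A B.slope (κ.wire (W := B.W)) < rk B.A B.slope (.inn u : Wire B.W B.ns) := by
    cases κ <;> simp only [MK.slp, MK.zb, MK.za, MK.wire, rk] at hs ⊢ <;> omega
  obtain ⟨hz1, hz2, hw⟩ := hz
  obtain ⟨a', b', c', e'⟩ := hOld_zone B X M' i' t' u o
  rcases hMv_cases B X M i t κ k with ⟨e, c⟩ | ⟨e, c⟩ | ⟨e, c⟩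
  · obtain ⟨a1, b1, c1, e1⟩ := hOld_zone B X M i t u o
    rw [e, e1, H4_lt] at h
    omega
  · rcases hMv_cases B X M' i' t' κ k with ⟨f, d⟩ | ⟨f, d⟩ | ⟨f, d⟩
    · exfalso; unfold SLe at hle; omega
    · have hM : M' = M := by omega
      have htt : t ≤ t' := by
        rcases hle with h1 | ⟨_, h1 | ⟨_, h1⟩⟩
        · omega
        · omega
        · exact h1
      subst hM
      obtain ⟨c1, c2⟩ := c
      obtain ⟨d1, d2⟩ := d
      subst c2; subst d2
      rcases hOld_cases B X M' 4 t u o with ⟨e1, c1'⟩ | ⟨e1, c1'⟩ | ⟨e1, c1'⟩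
      · omega
      · rcases hOld_cases B X M' 4 t' u o with ⟨f1, d1'⟩ | ⟨f1, d1'⟩ | ⟨f1, d1'⟩
        · omega
        · rw [e, e1, H4_lt] at h
          rw [f, f1, H4_lt]
          refine Or.inr ⟨rfl, ?_⟩
          rcases h with h | ⟨_, h | ⟨h, h'⟩⟩
          · omega
          · exact Or.inl h
          · refine Or.inr ⟨h, Or.inr ⟨rfl, ?_⟩⟩
            have h2 : B.h t κ.wire < B.h (clk B X M' 4 t (B.slope u * kx X M' + o)) (.inn u) := by
              rcases h' with h' | ⟨_, h'⟩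
              · omega
              · exact h'
            have k1 : ∀ tt, clk B X M' 4 tt (B.slope u * kx X M' + o) = tt := by
              intro tt; unfold clk; rw [if_neg (by omega), if_neg (by omega)]; simp
            rw [k1] at h2 ⊢
            exact B.once _ _ _ _ hw htt h2
        · omega
      · omega
    · rw [f, e', H4_lt]; omega
  · rcases hMv_cases B X M' i' t' κ k with ⟨f, d⟩ | ⟨f, d⟩ | ⟨f, d⟩
    · exfalso; unfold SLe at hle; omega
    · exfalso; unfold SLe at hle; omega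
    · rw [f, e', H4_lt]; omega

/-! ### monotonicity of the column -/

theorem kx_mono {M M' : ℕ} (h : M ≤ M') : kx X M ≤ kx X M' := by
  unfold kx
  exact_mod_cast Nat.div_le_div_right (by omega)

theorem ky_mono {M M' : ℕ} (h : M ≤ M') (hx : kx X M = kx X M') : ky X M ≤ ky X M' := by
  unfold kx at hx
  unfold ky
  have h1 : (M - 1) / X = (M' - 1) / X := by exact_mod_cast hx
  have h2 := Nat.div_add_mod (M - 1) X
  have h3 := Nat.div_add_mod (M' - 1) X
  rw [h1] at h2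
  have : (M - 1) % X ≤ (M' - 1) % X := by omega
  exact_mod_cast this

theorem ky_strict {M M' : ℕ} (h1 : 1 ≤ M) (h : M < M') (hx : kx X M = kx X M') :
    ky X M < ky X M' := by
  unfold kx at hx
  unfold ky
  have h1 : (M - 1) / X = (M' - 1) / X := by exact_mod_cast hx
  have h2 := Nat.div_add_mod (M - 1) X
  have h3 := Nat.div_add_mod (M' - 1) X
  rw [h1] at h2
  have : (M - 1) % X < (M' - 1) % X := by omega
  exact_mod_cast this

/-- monotonicity of the clock of a site -/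
theorem clk_le {M i : ℕ} {t : B.τ} {M' i' : ℕ} {t' : B.τ} (hM : 1 ≤ M) (hle : SLe B M i t M' i' t')
    (hx : kx X M = kx X M') (y : ℤ) : clk B X M i t y ≤ clk B X M' i' t' y := by
  have h0 := B.ini_le
  have h1 := B.le_fin
  rcases hle with h | ⟨rfl, h⟩
  · have hy := ky_strict X hM h hx
    unfold clk
    split_ifs <;>
    first
      | exact le_rfl
      | exact h0 _
      | exact h1 _
      | (exfalso; omega)
  · unfold clk
    split_ifs with a1 a2 a3 a4 a5 a6 a7 a8 <;>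
    first
      | exact le_rfl
      | exact h0 _
      | exact h1 _
      | (exfalso; omega)
      | (rcases h with h | ⟨_, h⟩
         · omega
         · exact h)


theorem once_old_old (u : B.W) (o : ℤ) (u' : B.W) (o' : ℤ) (hs : B.slope u < B.slope u')
    (M i : ℕ) (t : B.τ) (M' i' : ℕ) (t' : B.τ) (hle : SLe B M i t M' i' t')
    (h : hOld B X M i t u o < hOld B X M i t u' o') :
    hOld B X M' i' t' u o < hOld B X M' i' t' u' o' := by
  have hMM : M ≤ M' := by unfold SLe at hle; omega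
  rcases hOld_cases B X M i t u o with ⟨e, c⟩ | ⟨e, c⟩ | ⟨e, c⟩ <;>
  rcases hOld_cases B X M i t u' o' with ⟨e', c'⟩ | ⟨e', c'⟩ | ⟨e', c'⟩ <;>
  first
    | (exfalso; omega)
    | skip
  · rw [e, e', H4_lt] at h
    omega
  · rcases hOld_cases B X M' i' t' u o with ⟨f, d⟩ | ⟨f, d⟩ | ⟨f, d⟩ <;>
    rcases hOld_cases B X M' i' t' u' o' with ⟨f', d'⟩ | ⟨f', d'⟩ | ⟨f', d'⟩ <;>
    first
      | (exfalso; omega)
      | skip
    · rw [e, e', H4_lt] at h
      rw [f, f', H4_lt]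
      refine Or.inr ⟨rfl, ?_⟩
      have hx := kx_mono X hMM
      rcases h with h | ⟨_, h⟩
      · omega
      rcases hx.lt_or_eq with hx | hx
      · left
        have h1 : B.slope u * kx X M + o ≤ B.slope u' * kx X M + o' := by omega
        nlinarith [mul_pos (sub_pos.2 hs) (sub_pos.2 hx)]
      · rw [← hx]
        rcases h with h | ⟨h, h'⟩
        · exact Or.inl h
        · refine Or.inr ⟨h, Or.inr ⟨rfl, ?_⟩⟩
          rcases h' with h' | ⟨_, h'⟩
          · omega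
          rw [← h] at h' ⊢
          exact B.once (.inn u) (.inn u') _ _ hs (clk_le B X c.1 hle hx _) h'
    · rw [f, f', H4_lt]; omega
  · rcases hOld_cases B X M' i' t' u o with ⟨f, d⟩ | ⟨f, d⟩ | ⟨f, d⟩ <;>
    rcases hOld_cases B X M' i' t' u' o' with ⟨f', d'⟩ | ⟨f', d'⟩ | ⟨f', d'⟩ <;>
    first
      | (exfalso; omega)
      | skip
    rw [f, f', H4_lt]; omega

/-- zones of the new wires -/
theorem hMv_zone (M i : ℕ) (t : B.τ) (κ : MK B.ns) (k : ℕ) :
    ∃ z a b c, hMv B X M i t κ k = H4 z a b c ∧ -26 ≤ z ∧ z ≤ -6 := by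
  rcases hMv_cases B X M i t κ k with ⟨e, c⟩ | ⟨e, c⟩ | ⟨e, c⟩
  · refine ⟨_, _, _, _, e, ?_⟩; cases κ <;> simp [MK.zb]
  · refine ⟨_, _, _, _, e, ?_⟩; omega
  · refine ⟨_, _, _, _, e, ?_⟩; cases κ <;> simp [MK.za]

theorem hInn_zone (M i : ℕ) (t : B.τ) (w : GW B X) :
    ∃ z a b c, hG B X M i t (.inn w) = H4 z a b c ∧ -26 ≤ z ∧ z ≤ -6 := by
  cases w with
  | old u o ho =>
    obtain ⟨a, b, c, e⟩ := hOld_zone B X M i t u o
    exact ⟨-16, a, b, c, e, by omega⟩
  | mv κ k => exact hMv_zone B X M i t κ k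

/-- `L` against inner wires -/
theorem once_L_inn (w : GW B X) (M i : ℕ) (t : B.τ) (M' i' : ℕ) (t' : B.τ)
    (hle : SLe B M i t M' i' t') (h : hG B X M i t .L < hG B X M i t (.inn w)) :
    hG B X M' i' t' .L < hG B X M' i' t' (.inn w) := by
  have hMM : M ≤ M' := by unfold SLe at hle; omega
  obtain ⟨z', a', b', c', e', h1', h2'⟩ := hInn_zone B X M' i' t' w
  by_cases hM' : M' ≤ X * X + 1
  · have hM : M ≤ X * X + 1 := by omega
    cases w with
    | old u o ho =>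
      obtain ⟨a, b, c, e⟩ := hOld_zone B X M i t u o
      simp only [hG, if_pos hM] at h
      rw [e, H4_lt] at h; omega
    | mv κ k =>
      simp only [hG, if_pos hM, if_pos hM'] at h ⊢
      rcases hMv_cases B X M i t κ k with ⟨e, c⟩ | ⟨e, c⟩ | ⟨e, c⟩ <;>
      rcases hMv_cases B X M' i' t' κ k with ⟨f, d⟩ | ⟨f, d⟩ | ⟨f, d⟩ <;>
      (rw [e, H4_lt] at h; rw [f, H4_lt]
       cases κ <;> simp only [MK.zb, MK.za] at h ⊢ <;> unfold SLe at hle <;> omega)
  · rw [e']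
    simp only [hG, if_neg hM']
    rw [H4_lt]; omega

/-- inner wires against `C` -/
theorem once_inn_C (w : GW B X) (M i : ℕ) (t : B.τ) (M' i' : ℕ) (t' : B.τ)
    (hle : SLe B M i t M' i' t') (h : hG B X M i t (.inn w) < hG B X M i t .C) :
    hG B X M' i' t' (.inn w) < hG B X M' i' t' .C := by
  have hMM : M ≤ M' := by unfold SLe at hle; omega
  obtain ⟨z', a', b', c', e', h1', h2'⟩ := hInn_zone B X M' i' t' w
  by_cases hM' : M' ≤ X * X + 1
  · have hM : M ≤ X * X + 1 := by omega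
    cases w with
    | old u o ho =>
      obtain ⟨a, b, c, e⟩ := hOld_zone B X M i t u o
      simp only [hG, if_pos hM] at h
      rw [e, H4_lt] at h; omega
    | mv κ k =>
      simp only [hG, if_pos hM, if_pos hM'] at h ⊢
      rcases hMv_cases B X M i t κ k with ⟨e, c⟩ | ⟨e, c⟩ | ⟨e, c⟩ <;>
      rcases hMv_cases B X M' i' t' κ k with ⟨f, d⟩ | ⟨f, d⟩ | ⟨f, d⟩ <;>
      (rw [e, H4_lt] at h; rw [f, H4_lt]
       cases κ <;> simp only [MK.zb, MK.za] at h ⊢ <;> unfold SLe at hle <;> omega)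
  · rw [e']
    simp only [hG, if_neg hM']
    rw [H4_lt]; omega

/-- core wires are below the waiting / above the fallen `S m`; same for `R m` -/
theorem core_zone (M i : ℕ) (t : B.τ) (p : Wire (GW B X) (X * X + 1)) (hp : p.IsCore) :
    ∃ z a b c, hG B X M i t p = H4 z a b c ∧ -27 ≤ z ∧ z ≤ -5 ∧ (M ≤ X * X + 1 → -26 ≤ z ∧ z ≤ -6) := by
  cases p with
  | inn w =>
    obtain ⟨z, a, b, c, e, h1, h2⟩ := hInn_zone B X M i t w
    exact ⟨z, a, b, c, e, by omega, by omega, by omega⟩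
  | L =>
    by_cases hM : M ≤ X * X + 1
    · refine ⟨-10, 0, 0, _, by simp only [hG, if_pos hM]; rfl, by omega, by omega, by omega⟩
    · refine ⟨-27, 0, 0, _, by simp only [hG, if_neg hM]; rfl, by omega, by omega, by omega⟩
  | C =>
    by_cases hM : M ≤ X * X + 1
    · refine ⟨-22, 0, 0, _, by simp only [hG, if_pos hM]; rfl, by omega, by omega, by omega⟩
    · refine ⟨-5, 0, 0, _, by simp only [hG, if_neg hM]; rfl, by omega, by omega, by omega⟩
  | S m => exact absurd hp (by simp [Wire.IsCore])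
  | R m => exact absurd hp (by simp [Wire.IsCore])

theorem hS_cases (M i : ℕ) (t : B.τ) (m : Fin (X * X + 1)) :
    (hG B X M i t (.S m) = H4 (-4) m 0 (B.h B.ini .L) ∧ (M < m + 1 ∨ (M = m + 1 ∧ i ≤ 2))) ∨
    (hG B X M i t (.S m) = H4 (-30) m 0 (B.h B.ini .L) ∧ (m + 1 < M ∨ (M = m + 1 ∧ 3 ≤ i))) := by
  by_cases h : M < m + 1 ∨ (M = m + 1 ∧ i ≤ 2)
  · left; exact ⟨by simp only [hG, if_pos h], h⟩
  · right; exact ⟨by simp only [hG, if_neg h], by omega⟩

theorem hR_cases (M i : ℕ) (t : B.τ) (m : Fin (X * X + 1)) :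
    (hG B X M i t (.R m) = H4 (-28) (-(m : ℤ)) 0 (B.h B.ini .L) ∧ (M < m + 1 ∨ (M = m + 1 ∧ i = 0))) ∨
    (hG B X M i t (.R m) = H4 (-5) 0 0 (B.h B.ini .L) ∧ (M = m + 1 ∧ i = 1)) ∨
    (hG B X M i t (.R m) = H4 (-2) (-(m : ℤ)) 0 (B.h B.ini .L) ∧ (m + 1 < M ∨ (M = m + 1 ∧ 2 ≤ i))) := by
  by_cases h : M < m + 1 ∨ (M = m + 1 ∧ i = 0)
  · left; exact ⟨by simp only [hG, if_pos h], h⟩
  · by_cases h' : M = m + 1 ∧ i = 1
    · right; left; exact ⟨by simp only [hG, if_neg h, if_pos h'], h'⟩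
    · right; right; exact ⟨by simp only [hG, if_neg h, if_neg h'], by omega⟩

theorem once_S_core (m : Fin (X * X + 1)) (p : Wire (GW B X) (X * X + 1)) (hp : p.IsCore)
    (M i : ℕ) (t : B.τ) (M' i' : ℕ) (t' : B.τ)
    (hle : SLe B M i t M' i' t') (h : hG B X M i t (.S m) < hG B X M i t p) :
    hG B X M' i' t' (.S m) < hG B X M' i' t' p := by
  obtain ⟨z, a, b, c, e, h1, h2, h3⟩ := core_zone B X M i t p hp
  obtain ⟨z', a', b', c', e', h1', h2', h3'⟩ := core_zone B X M' i' t' p hp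
  rcases hS_cases B X M i t m with ⟨f, d⟩ | ⟨f, d⟩
  · rw [e, f, H4_lt] at h; omega
  · rcases hS_cases B X M' i' t' m with ⟨f', d'⟩ | ⟨f', d'⟩
    · exfalso; unfold SLe at hle; omega
    · rw [e', f', H4_lt]; omega

theorem once_core_R (m : Fin (X * X + 1)) (p : Wire (GW B X) (X * X + 1)) (hp : p.IsCore)
    (M i : ℕ) (t : B.τ) (M' i' : ℕ) (t' : B.τ)
    (hle : SLe B M i t M' i' t') (h : hG B X M i t p < hG B X M i t (.R m)) :
    hG B X M' i' t' p < hG B X M' i' t' (.R m) := by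
  have hm := m.2
  obtain ⟨z, a, b, c, e, h1, h2, h3⟩ := core_zone B X M i t p hp
  obtain ⟨z', a', b', c', e', h1', h2', h3'⟩ := core_zone B X M' i' t' p hp
  rcases hR_cases B X M i t m with ⟨f, d⟩ | ⟨f, d⟩ | ⟨f, d⟩
  · rw [e, f, H4_lt] at h; omega
  all_goals
    rcases hR_cases B X M' i' t' m with ⟨f', d'⟩ | ⟨f', d'⟩ | ⟨f', d'⟩
    · exfalso; unfold SLe at hle; omega
    · have := h3' (by omega)
      rw [e', f', H4_lt]; omega
    · rw [e', f', H4_lt]; omega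

theorem once_S_R (m m' : Fin (X * X + 1)) (M i : ℕ) (t : B.τ) (M' i' : ℕ) (t' : B.τ)
    (hle : SLe B M i t M' i' t') (h : hG B X M i t (.S m) < hG B X M i t (.R m')) :
    hG B X M' i' t' (.S m) < hG B X M' i' t' (.R m') := by
  rcases hS_cases B X M i t m with ⟨e, c⟩ | ⟨e, c⟩ <;>
  rcases hR_cases B X M i t m' with ⟨f, d⟩ | ⟨f, d⟩ | ⟨f, d⟩ <;>
  rcases hS_cases B X M' i' t' m with ⟨e', c'⟩ | ⟨e', c'⟩ <;>
  rcases hR_cases B X M' i' t' m' with ⟨f', d'⟩ | ⟨f', d'⟩ | ⟨f', d'⟩ <;>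
  (rw [e, f, H4_lt] at h; rw [e', f', H4_lt]; unfold SLe at hle; omega)

theorem once_L_C (M i : ℕ) (t : B.τ) (M' i' : ℕ) (t' : B.τ)
    (hle : SLe B M i t M' i' t') (h : hG B X M i t .L < hG B X M i t .C) :
    hG B X M' i' t' .L < hG B X M' i' t' .C := by
  have hMM : M ≤ M' := by unfold SLe at hle; omega
  simp only [hG] at h ⊢
  split_ifs at h ⊢ <;> rw [H4_lt] at h ⊢ <;> omega

end Pool.Agent.W_be22fd_h27
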