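import Pool.Agent.W_be22fd_h27.Once

namespace Pool.Agent.W_be22fd_h27

variable (B : Block) (X : ℕ)

theorem slopeG_bound (w : GW B X) : -(B.A + (X * X : ℕ) + 1) ≤ slopeG B X w ∧
    slopeG B X w ≤ B.A + (X * X : ℕ) + 1 := by
  have hA := B.A_nonneg
  cases w with
  | old u o ho =>
    have := abs_le.1 (B.slope_le u)
    simp only [slopeG]
    omega
  | mv κ k =>
    have hk : ((k : ℕ) : ℤ) < ((X * X : ℕ) : ℤ) := by exact_mod_cast k.2
    simp only [slopeG]
    cases κ <;> simp only [MK.slp] <;> omega

theorem rkG_inn (w : GW B X) : rkG B X (.inn w) = slopeG B X w := rfl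

/-- once switched stays switched, all pairs -/
theorem onceG (p q : Wire (GW B X) (X * X + 1)) (hr : rkG B X p < rkG B X q)
    (M i : ℕ) (t : B.τ) (M' i' : ℕ) (t' : B.τ)
    (hle : SLe B M i t M' i' t') (h : hG B X M i t p < hG B X M i t q) :
    hG B X M' i' t' p < hG B X M' i' t' q := by
  have hA := B.A_nonneg
  have hK : (0 : ℤ) ≤ ((X * X : ℕ) : ℤ) := Int.natCast_nonneg _
  cases p with
  | S m =>
    cases q with
    | S m' => simp only [rkG, rk] at hr; omega
    | R m' => exact once_S_R B X m m' M i t M' i' t' hle h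
    | inn w => exact once_S_core B X m _ (by simp [Wire.IsCore]) M i t M' i' t' hle h
    | L => exact once_S_core B X m _ (by simp [Wire.IsCore]) M i t M' i' t' hle h
    | C => exact once_S_core B X m _ (by simp [Wire.IsCore]) M i t M' i' t' hle h
  | R m =>
    cases q with
    | S m' => simp only [rkG, rk] at hr; omega
    | R m' => simp only [rkG, rk] at hr; omega
    | inn w => have := slopeG_bound B X w; simp only [rkG, rk] at hr; omega
    | L => simp only [rkG, rk] at hr; omega
    | C => simp only [rkG, rk] at hr; omega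
  | L =>
    cases q with
    | S m' => simp only [rkG, rk] at hr; omega
    | R m' => exact once_core_R B X m' _ (by simp [Wire.IsCore]) M i t M' i' t' hle h
    | inn w => exact once_L_inn B X w M i t M' i' t' hle h
    | L => simp only [rkG, rk] at hr; omega
    | C => exact once_L_C B X M i t M' i' t' hle h
  | C =>
    cases q with
    | S m' => simp only [rkG, rk] at hr; omega
    | R m' => exact once_core_R B X m' _ (by simp [Wire.IsCore]) M i t M' i' t' hle h
    | inn w => have := slopeG_bound B X w; simp only [rkG, rk] at hr; omega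
    | L => simp only [rkG, rk] at hr; omega
    | C => simp only [rkG, rk] at hr; omega
  | inn w =>
    have hw := slopeG_bound B X w
    cases q with
    | S m' => simp only [rkG, rk] at hr; omega
    | R m' => exact once_core_R B X m' _ (by simp [Wire.IsCore]) M i t M' i' t' hle h
    | L => simp only [rkG, rk] at hr; omega
    | C => exact once_inn_C B X w M i t M' i' t' hle h
    | inn w' =>
      cases w with
      | old u o ho =>
        cases w' with
        | old u' o' ho' => exact once_old_old B X u o u' o' hr M i t M' i' t' hle h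
        | mv κ k => exact once_old_mv B X u o κ k k.2 hr M i t M' i' t' hle h
      | mv κ k =>
        cases w' with
        | old u' o' ho' => exact once_mv_old B X u' o' κ k k.2 hr M i t M' i' t' hle h
        | mv κ' k' => exact once_mv_mv B X κ κ' k k' k.2 k'.2 hr M i t M' i' t' hle h

/-! ### wires of one class -/

theorem same_old (u : B.W) (o : ℤ) (u' : B.W) (o' : ℤ) (hs : B.slope u = B.slope u')
    (M i : ℕ) (t : B.τ) :
    hOld B X M i t u o < hOld B X M i t u' o' ↔
      o < o' ∨ (o = o' ∧ B.h B.ini (.inn u) < B.h B.ini (.inn u')) := by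
  have hr : rk B.A B.slope (.inn u : Wire B.W B.ns) = rk B.A B.slope (.inn u' : Wire B.W B.ns) := hs
  have key : ∀ t t' : B.τ, B.h t (.inn u) < B.h t (.inn u') ↔ B.h t' (.inn u) < B.h t' (.inn u') :=
    fun t t' => ⟨B.same _ _ _ _ hr, B.same _ _ _ _ hr⟩
  rcases hOld_cases B X M i t u o with ⟨e, c⟩ | ⟨e, c⟩ | ⟨e, c⟩ <;>
  rcases hOld_cases B X M i t u' o' with ⟨e', c'⟩ | ⟨e', c'⟩ | ⟨e', c'⟩ <;>
  first
    | (exfalso; omega)
    | skip
  · rw [e, e', H4_lt, hs]
    simp
  · rw [e, e', H4_lt, hs]
    simp only [lt_self_iff_false, false_or, true_and, add_lt_add_iff_left, add_right_inj]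
    constructor
    · rintro (h | ⟨h, h'⟩)
      · exact Or.inl h
      · subst h; exact Or.inr ⟨rfl, (key _ _).1 h'⟩
    · rintro (h | ⟨h, h'⟩)
      · exact Or.inl h
      · subst h; exact Or.inr ⟨rfl, (key _ _).1 h'⟩
  · rw [e, e', H4_lt, hs, key B.fin B.ini]
    simp

theorem Rp_gt (m m' : Fin B.ns) (k k' : ℕ) (h : k < k' ∨ (k = k' ∧ m < m'))
    (M i : ℕ) (t : B.τ) :
    hMv B X M i t (.Rp m') k' < hMv B X M i t (.Rp m) k := by
  have hm : k < k' ∨ (k = k' ∧ (m : ℕ) < m') := by
    rcases h with h | ⟨h1, h⟩
    · exact Or.inl h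
    · exact Or.inr ⟨h1, h⟩
  clear h
  have hR := fun hk : (m : ℕ) < m' => B.R_order m m' hk
  rcases hMv_cases B X M i t (.Rp m) k with ⟨e, c⟩ | ⟨e, c⟩ | ⟨e, c⟩ <;>
  rcases hMv_cases B X M i t (.Rp m') k' with ⟨e', c'⟩ | ⟨e', c'⟩ | ⟨e', c'⟩ <;>
  first
    | (exfalso; omega)
    | (rw [e, e', H4_lt]; simp only [MK.zb, MK.za, MK.ab, MK.aa, MK.bb, true_and, lt_self_iff_false, false_or]; omega)
    | (rw [e, e', H4_lt]
       have hk : (m : ℕ) < m' := by omega
       simp only [MK.wire]
       have h3 := hR hk t
       simp [h3])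

theorem Sp_lt (m m' : Fin B.ns) (k k' : ℕ) (h : k < k' ∨ (k = k' ∧ m < m'))
    (M i : ℕ) (t : B.τ) :
    hMv B X M i t (.Sp m) k < hMv B X M i t (.Sp m') k' := by
  have hm : k < k' ∨ (k = k' ∧ (m : ℕ) < m') := by
    rcases h with h | ⟨h1, h⟩
    · exact Or.inl h
    · exact Or.inr ⟨h1, h⟩
  clear h
  have hR := fun hk : (m : ℕ) < m' => B.S_order m m' hk
  rcases hMv_cases B X M i t (.Sp m) k with ⟨e, c⟩ | ⟨e, c⟩ | ⟨e, c⟩ <;>
  rcases hMv_cases B X M i t (.Sp m') k' with ⟨e', c'⟩ | ⟨e', c'⟩ | ⟨e', c'⟩ <;>
  first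
    | (exfalso; omega)
    | (rw [e, e', H4_lt]; simp only [MK.zb, MK.za, MK.ab, MK.aa, MK.bb, true_and, lt_self_iff_false, false_or]; omega)
    | (rw [e, e', H4_lt]
       have hk : (m : ℕ) < m' := by omega
       simp only [MK.wire]
       have h3 := hR hk t
       simp [h3])

theorem same_mv (κ κ' : MK B.ns) (k k' : ℕ) (hk : k < X * X) (hk' : k' < X * X)
    (hs : κ.slp B.A (X * X) k = κ'.slp B.A (X * X) k') (M i : ℕ) (t : B.τ) (M' i' : ℕ) (t' : B.τ)
    (h : hMv B X M i t κ k < hMv B X M i t κ' k') :
    hMv B X M' i' t' κ k < hMv B X M' i' t' κ' k' := by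
  have hA := B.A_nonneg
  cases κ <;> cases κ' <;> simp only [MK.slp] at hs <;> first | (exfalso; omega) | skip
  · have : k = k' := by omega
    subst this; exact absurd h (lt_irrefl _)
  · have : k = k' := by omega
    subst this; exact absurd h (lt_irrefl _)
  · rename_i m m'
    by_cases hc : k < k' ∨ (k = k' ∧ m < m')
    · exact absurd h (not_lt.2 (Rp_gt B X m m' k k' hc M i t).le)
    · by_cases he : k = k' ∧ m = m'
      · obtain ⟨rfl, rfl⟩ := he; exact absurd h (lt_irrefl _)
      · refine Rp_gt B X m' m k' k ?_ M' i' t'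
        rcases lt_trichotomy k k' with h1 | h1 | h1
        · exact absurd (Or.inl h1) hc
        · right; refine ⟨h1.symm, ?_⟩
          rcases lt_trichotomy m m' with h2 | h2 | h2
          · exact absurd (Or.inr ⟨h1, h2⟩) hc
          · exact absurd ⟨h1, h2⟩ he
          · exact h2
        · exact Or.inl h1
  · rename_i m m'
    by_cases hc : k < k' ∨ (k = k' ∧ m < m')
    · exact Sp_lt B X m m' k k' hc M' i' t'
    · by_cases he : k = k' ∧ m = m'
      · obtain ⟨rfl, rfl⟩ := he; exact absurd h (lt_irrefl _)
      · refine absurd h (not_lt.2 (Sp_lt B X m' m k' k ?_ M i t).le)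
        rcases lt_trichotomy k k' with h1 | h1 | h1
        · exact absurd (Or.inl h1) hc
        · right; refine ⟨h1.symm, ?_⟩
          rcases lt_trichotomy m m' with h2 | h2 | h2
          · exact absurd (Or.inr ⟨h1, h2⟩) hc
          · exact absurd ⟨h1, h2⟩ he
          · exact h2
        · exact Or.inl h1

theorem S_orderG (m m' : Fin (X * X + 1)) (h : m < m') (M i : ℕ) (t : B.τ) :
    hG B X M i t (.S m) < hG B X M i t (.S m') := by
  have hm : (m : ℕ) < m' := h
  rcases hS_cases B X M i t m with ⟨e, c⟩ | ⟨e, c⟩ <;>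
  rcases hS_cases B X M i t m' with ⟨f, d⟩ | ⟨f, d⟩ <;>
  (rw [e, f, H4_lt]; omega)

theorem R_orderG (m m' : Fin (X * X + 1)) (h : m < m') (M i : ℕ) (t : B.τ) :
    hG B X M i t (.R m') < hG B X M i t (.R m) := by
  have hm : (m : ℕ) < m' := h
  rcases hR_cases B X M i t m with ⟨e, c⟩ | ⟨e, c⟩ | ⟨e, c⟩ <;>
  rcases hR_cases B X M i t m' with ⟨f, d⟩ | ⟨f, d⟩ | ⟨f, d⟩ <;>
  (rw [e, f, H4_lt]; omega)

/-- wires of one class never switch -/
theorem sameG (p q : Wire (GW B X) (X * X + 1)) (hr : rkG B X p = rkG B X q)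
    (M i : ℕ) (t : B.τ) (M' i' : ℕ) (t' : B.τ) (h : hG B X M i t p < hG B X M i t q) :
    hG B X M' i' t' p < hG B X M' i' t' q := by
  have hA := B.A_nonneg
  have hK : (0 : ℤ) ≤ ((X * X : ℕ) : ℤ) := Int.natCast_nonneg _
  cases p with
  | S m =>
    cases q with
    | S m' =>
      rcases lt_trichotomy m m' with h1 | h1 | h1
      · exact S_orderG B X m m' h1 M' i' t'
      · subst h1; exact absurd h (lt_irrefl _)
      · exact absurd h (not_lt.2 (S_orderG B X m' m h1 M i t).le)
    | R m' => simp only [rkG, rk] at hr; omega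
    | inn w => have := slopeG_bound B X w; simp only [rkG, rk] at hr; omega
    | L => simp only [rkG, rk] at hr; omega
    | C => simp only [rkG, rk] at hr; omega
  | R m =>
    cases q with
    | S m' => simp only [rkG, rk] at hr; omega
    | R m' =>
      rcases lt_trichotomy m m' with h1 | h1 | h1
      · exact absurd h (not_lt.2 (R_orderG B X m m' h1 M i t).le)
      · subst h1; exact absurd h (lt_irrefl _)
      · exact R_orderG B X m' m h1 M' i' t'
    | inn w => have := slopeG_bound B X w; simp only [rkG, rk] at hr; omega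
    | L => simp only [rkG, rk] at hr; omega
    | C => simp only [rkG, rk] at hr; omega
  | L =>
    cases q with
    | S m' => simp only [rkG, rk] at hr; omega
    | R m' => simp only [rkG, rk] at hr; omega
    | inn w => have := slopeG_bound B X w; simp only [rkG, rk] at hr; omega
    | L => exact absurd h (lt_irrefl _)
    | C => simp only [rkG, rk] at hr; omega
  | C =>
    cases q with
    | S m' => simp only [rkG, rk] at hr; omega
    | R m' => simp only [rkG, rk] at hr; omega
    | inn w => have := slopeG_bound B X w; simp only [rkG, rk] at hr; omega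
    | L => simp only [rkG, rk] at hr; omega
    | C => exact absurd h (lt_irrefl _)
  | inn w =>
    have hw := slopeG_bound B X w
    cases q with
    | S m' => simp only [rkG, rk] at hr; omega
    | R m' => simp only [rkG, rk] at hr; omega
    | L => simp only [rkG, rk] at hr; omega
    | C => simp only [rkG, rk] at hr; omega
    | inn w' =>
      cases w with
      | old u o ho =>
        have hu := abs_le.1 (B.slope_le u)
        cases w' with
        | old u' o' ho' =>
          have hs : B.slope u = B.slope u' := hr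
          exact (same_old B X u o u' o' hs M' i' t').2 ((same_old B X u o u' o' hs M i t).1 h)
        | mv κ k =>
          exfalso
          change B.slope u = κ.slp B.A (X * X) k at hr
          cases κ <;> simp only [MK.slp] at hr <;> omega
      | mv κ k =>
        cases w' with
        | old u o ho =>
          exfalso
          have hu := abs_le.1 (B.slope_le u)
          change κ.slp B.A (X * X) k = B.slope u at hr
          cases κ <;> simp only [MK.slp] at hr <;> omega
        | mv κ' k' => exact same_mv B X κ κ' k k' k.2 k'.2 hr M i t M' i' t' h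

end Pool.Agent.W_be22fd_h27
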